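import Pool.Agent.helper71.PQZ.Spec

set_option autoImplicit false

open Filter Topology Set

namespace Pool.Agent.PQZ

theorem DEN_delta (S : Finset ℚ) (hS : ∀ s ∈ S, 0 < s) :
    ∃ δ : ℚ, 0 < δ ∧ δ < 1 ∧ ∀ s ∈ S, δ < s := by
  induction S using Finset.induction_on with
  | empty => exact ⟨1 / 2, by norm_num, by norm_num, by simp⟩
  | insert a S _ ih =>
    obtain ⟨δ, h0, h1, h2⟩ := ih fun s hs => hS s (Finset.mem_insert_of_mem hs)
    have ha : 0 < a := hS a (Finset.mem_insert_self a S)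
    refine ⟨min δ (a / 2), lt_min h0 (by linarith), lt_of_le_of_lt (min_le_left _ _) h1, ?_⟩
    intro s hs
    rcases Finset.mem_insert.1 hs with rfl | hs
    · exact lt_of_le_of_lt (min_le_right _ _) (by linarith)
    · exact lt_of_le_of_lt (min_le_left _ _) (h2 s hs)

theorem DEN_proof (hA : APX_stmt) (hC : CTB_stmt) : DEN_stmt := by
  intro E _ _ ρ hρ u ε hyp v hv
  refine le_of_forall_pos_le_add fun η hη => ?_
  obtain ⟨F, hF, hF2⟩ := hC E ρ hρ u η hη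
  have hvpos : ∀ f ∈ F, 0 < ap v f := fun f hf => by
    have := ap_strictMono v (hF f hf).1
    rwa [hv] at this
  obtain ⟨δ, hδ0, hδ1, hδ⟩ := DEN_delta (F ∪ F.image (ap v)) (by
    intro s hs
    rcases Finset.mem_union.1 hs with hs | hs
    · exact (hF s hs).1
    · obtain ⟨f, hf, rfl⟩ := Finset.mem_image.1 hs
      exact hvpos f hf)
  obtain ⟨w, hw1, hw2⟩ := hA v F δ hv hδ0.le (fun f hf => ⟨hδ f (Finset.mem_union_left _ hf),
    (hF f hf).2, hδ _ (Finset.mem_union_right _ (Finset.mem_image_of_mem _ hf))⟩) hδ1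
  have hw0 : ap w 0 = 0 := hw1 0 le_rfl hδ0.le
  have h1 : ‖ρ w u - u‖ ≤ ε := hyp w δ hw0 hδ0 hw1
  have h2 : ‖ρ v u - ρ w u‖ ≤ η := hF2 v w hv hw0 fun x hx => (hw2 x hx).symm
  have h3 : ρ v u - u = (ρ w u - u) + (ρ v u - ρ w u) := by abel
  calc ‖ρ v u - u‖ = ‖(ρ w u - u) + (ρ v u - ρ w u)‖ := by rw [h3]
    _ ≤ ‖ρ w u - u‖ + ‖ρ v u - ρ w u‖ := norm_add_le _ _
    _ ≤ ε + η := add_le_add h1 h2

end Pool.Agent.PQZ
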